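import Pool.Agent.Q295.BZ.Stm

/-!
# Assembly: two solutions of the BSDE with generator `|z| sin |z|`
-/

set_option autoImplicit false

namespace Pool.Agent.Q295.BZ

open MeasureTheory ProbabilityTheory Set Filter
open scoped NNReal ENNReal Topology Real
open Pool.Agent.Helper807.BS (Prog IsStop ClassD tt clamp classD_of_dominated tt_zero tt_lt_succ
  tt_mono tt_nonneg tt_lt)

universe u

variable {Ω : Type u} [mΩ : MeasurableSpace Ω]

theorem xs_zero_of_le (hpth : S_PTH) (T : ℝ) (hT : 0 < T) (w : ℝ → ℝ) (hw : Continuous w)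
    (N : ℕ) (hN : xs T w N = 0) : ∀ n, N ≤ n → xs T w n = 0 := by
  intro n hn
  induction n, hn using Nat.le_induction with
  | base => exact hN
  | succ n hn ih => exact ((hpth T hT w hw n).2.2.2.1 ih).2

theorem sch_sg (hpth : S_PTH) (hmsr : S_MSR.{u}) (P : Measure Ω) [IsProbabilityMeasure P]
    (F : ℝ → MeasurableSpace Ω) (W : ℝ → Ω → ℝ) (hW : CB P F W) (T : ℝ) (hT : 0 < T)
    (hgood : ∀ ω, ∃ n, xs T (fun t => W t ω) n = 0) :
    Sch T F (fun n ω => sg T (fun t => W t ω) n) := by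
  refine ⟨fun n ω => (hpth T hT _ (hW.cont ω) n).2.1, fun n ω => (hpth T hT _ (hW.cont ω) n).2.2.1,
    fun n s hs => (hmsr hpth Ω P F W hW T hT n).2 s hs, fun ω => ?_⟩
  obtain ⟨N, hN⟩ := hgood ω
  exact ⟨N, fun n hn => ((hpth T hT _ (hW.cont ω) n).2.2.2.1
    (xs_zero_of_le hpth T hT _ (hW.cont ω) N hN n hn)).1⟩

theorem mu_le (T : ℝ) (hT : 0 < T) (n : ℕ) (x : ℝ) (hx : 0 ≤ x) :
    2 * π * (mu T n x : ℝ) ≤ x / dl T n + 2 * π := by
  have hdl : 0 < dl T n := sub_pos.2 (tt_lt_succ T hT n)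
  have hpi := Real.pi_pos
  have h1 : (mu T n x : ℝ) < x / (4 * π * dl T n) + 1 :=
    Nat.ceil_lt_add_one (by positivity)
  have h2 : 2 * π * (x / (4 * π * dl T n) + 1) = x / dl T n / 2 + 2 * π := by
    field_simp
    ring
  have h3 : 0 ≤ x / dl T n := by positivity
  have h4 : 2 * π * (mu T n x : ℝ) ≤ 2 * π * (x / (4 * π * dl T n) + 1) :=
    mul_le_mul_of_nonneg_left h1.le (by positivity)
  linarith

theorem bound_coef (T : ℝ) (hT : 0 < T) (n : ℕ) (x : ℝ) (hx : 0 ≤ x) :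
    |2 * π * (mu T n x : ℝ) + π / 2| ≤ 3 * π * (1 + x / dl T n) ∧
    |2 * π * (mu T n x : ℝ) - π / 2| ≤ 3 * π * (1 + x / dl T n) ∧
    |π / 2 - 2 * π * (mu T n x : ℝ)| ≤ 3 * π * (1 + x / dl T n) := by
  have hdl : 0 < dl T n := sub_pos.2 (tt_lt_succ T hT n)
  have hpi := Real.pi_gt_three
  have h1 := mu_le T hT n x hx
  have h3 : 0 ≤ x / dl T n := by positivity
  have h4 : x / dl T n ≤ 3 * π * (x / dl T n) := by nlinarith
  have h5 : 0 ≤ 2 * π * (mu T n x : ℝ) := by positivity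
  refine ⟨?_, ?_, ?_⟩ <;> rw [abs_le] <;> constructor <;> nlinarith

omit mΩ in
theorem prog_sub (T : ℝ) (F : ℝ → MeasurableSpace Ω) (X X' : ℝ → Ω → ℝ) (c : ℝ)
    (hX : Prog T F X) (hX' : Prog T F X') : Prog T F (fun t ω => X t ω - X' t ω - c) := by
  intro t ht
  have h1 := hX t ht
  have h2 := hX' t ht
  have h3 : (inferInstance : MeasurableSpace ℝ) = borel ℝ := BorelSpace.measurable_eq
  rw [← h3] at h1 h2 ⊢
  exact (h1.sub h2).sub_const c

omit mΩ in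
theorem prog_abs_rpow (T : ℝ) (F : ℝ → MeasurableSpace Ω) (X : ℝ → Ω → ℝ) (p : ℝ)
    (hX : Prog T F X) : Prog T F (fun t ω => |X t ω| ^ p) := by
  intro t ht
  have h1 := hX t ht
  have h3 : (inferInstance : MeasurableSpace ℝ) = borel ℝ := BorelSpace.measurable_eq
  rw [← h3] at h1 ⊢
  exact (continuous_abs.measurable.comp h1).pow_const p

omit mΩ in
theorem prog_ite {d : ℕ} (T : ℝ) (F : ℝ → MeasurableSpace Ω) (X : ℝ → Ω → ℝ) (i j : Fin d)
    (hX : Prog T F X) : Prog T F (fun t ω => if j = i then X t ω else 0) := by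
  by_cases h : j = i
  · simp only [h, if_true]
    exact hX
  · simp only [h, if_false]
    intro t ht
    have h3 : (inferInstance : MeasurableSpace ℝ) = borel ℝ := BorelSpace.measurable_eq
    rw [← h3]
    exact measurable_const

omit mΩ in
theorem prog_terminal (T : ℝ) (hT : 0 ≤ T) (F : ℝ → MeasurableSpace Ω) (X : ℝ → Ω → ℝ)
    (hX : Prog T F X) : Measurable[F T, borel ℝ] (fun ω => X T ω) := by
  have h4 : @Measurable Ω (Icc (0 : ℝ) T × Ω) (F T)
      ((inferInstance : MeasurableSpace (Icc (0 : ℝ) T)).prod (F T))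
      (fun ω => (⟨T, hT, le_rfl⟩, ω)) :=
    @Measurable.prodMk Ω (F T) (Icc (0 : ℝ) T) Ω inferInstance (F T) _ _
      (@measurable_const _ _ _ (F T) (⟨T, hT, le_rfl⟩ : Icc (0 : ℝ) T))
      (@measurable_id Ω (F T))
  have h5 := hX T ⟨hT, le_rfl⟩
  have h6 := @Measurable.comp _ _ _ (F T) _ (borel ℝ) _ _ h5 h4
  exact fun s hs => h6 hs

/-- the solution with the coefficients `a` and time integral coefficients `c` -/
theorem isSol_of (hpwc : S_PWC.{u}) (hprm : S_PRM.{u}) (hprz : S_PRZ.{u}) (hctm : S_CTM.{u})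
    (hito : S_ITO.{u}) (hint : S_INT.{u}) (hgen : S_GEN) (P : Measure Ω) [IsProbabilityMeasure P]
    {d : ℕ} (B : Fin d → ℝ≥0 → Ω → ℝ) (W : ℝ → Ω → ℝ) (hW : CB P (Fil B P) W) (i : Fin d)
    (hWB : ∀ t, ∀ᵐ ω ∂P, W t ω = bt B i t ω) (T : ℝ) (hT : 0 < T) (σ a c : ℕ → Ω → ℝ)
    (hσ : Sch T (Fil B P) σ) (ha : ∀ n, Measurable[Fil B P (tt T n), borel ℝ] (a n))
    (hc : ∀ n, Measurable[Fil B P (tt T n), borel ℝ] (c n))
    (hac : ∀ n ω, |a n ω| * Real.sin |a n ω| = c n ω) (y : ℝ) (ξ : Ω → ℝ)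
    (hξ : ∀ ω, ξ ω = MM T W σ a T ω - AA T σ c T ω - y) :
    IsSol T P B gen ξ (fun t ω => MM T W σ a t ω - AA T σ c t ω - y)
      (fun j t ω => if j = i then ZZ T σ a t ω else 0) := by
  have h1 := hprm Ω P (Fil B P) W hW T hT σ a hσ ha
  have h1c := hprm Ω P (Fil B P) W hW T hT σ c hσ hc
  have h2 := hprz Ω P (Fil B P) W hW T hT σ a hσ ha
  have h3 := hctm Ω (Fil B P) W hW.cont T hT σ a hσ
  have h3c := hctm Ω (Fil B P) W hW.cont T hT σ c hσ
  have h4 := hint Ω (Fil B P) T hT σ a c hσ (fun z => |z| * Real.sin |z|) (by simp)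
    (fun n ω => hac n ω)
  refine ⟨prog_sub T _ _ _ y h1.1 h1c.2, fun j => prog_ite T _ _ i j h2, fun ω => ?_, ?_, ?_⟩
  · exact (((h3.1 ω).sub (h3c.2.1 ω)).sub continuous_const).continuousOn
  · refine Eventually.of_forall fun ω => ?_
    have e1 : ∀ s, (∑ j : Fin d, (if j = i then ZZ T σ a s ω else 0) ^ 2) = (ZZ T σ a s ω) ^ 2 := by
      intro s
      rw [Finset.sum_eq_single i]
      · simp
      · intro j _ hj
        simp [hj]
      · intro h
        exact absurd (Finset.mem_univ i) h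
    simp only [e1]
    exact h4.2 ω
  · refine ⟨MM T W σ a, hito hpwc hprm hprz hctm Ω P (Fil B P) W hW d i (bt B) hWB T hT σ a hσ ha,
      Eventually.of_forall fun ω => (h3.1 ω).continuousOn, Eventually.of_forall fun ω t ht => ?_⟩
    have e2 : (∫ s in t..T, gen (fun j : Fin d => if j = i then ZZ T σ a s ω else 0)) =
        AA T σ c T ω - AA T σ c t ω := by
      rw [← h4.1 ω t ht]
      refine intervalIntegral.integral_congr fun s _ => ?_
      exact hgen.1 d i (ZZ T σ a s ω)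
    show MM T W σ a t ω - AA T σ c t ω - y = ξ ω + (∫ s in t..T,
      gen (fun j : Fin d => if j = i then ZZ T σ a s ω else 0)) - (MM T W σ a T ω - MM T W σ a t ω)
    rw [e2, hξ ω]
    ring

/-- two solutions with the same terminal value -/
theorem two_solutions (hcbx : S_CBX.{u}) (hpwc : S_PWC.{u}) (hprm : S_PRM.{u}) (hprz : S_PRZ.{u})
    (hctm : S_CTM.{u}) (hito : S_ITO.{u}) (hint : S_INT.{u}) (hpth : S_PTH) (hmsr : S_MSR.{u})
    (hnul : S_NUL.{u}) (hgoo : S_GOO.{u}) (hmax : S_MAX.{u}) (hlps : S_LPS.{u})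
    (hmom : S_MOM.{u}) (hbnd : S_BND.{u}) (htel : S_TEL.{u}) (hgen : S_GEN) (hdom : S_DOM.{u})
    (P : Measure Ω) [IsProbabilityMeasure P] {d : ℕ} (hd : 1 ≤ d) (B : Fin d → ℝ≥0 → Ω → ℝ)
    (hB : IsBM B P) (T : ℝ) (hT : 0 < T) :
    ∃ (ξ : Ω → ℝ) (Y Y' : ℝ → Ω → ℝ) (Z Z' : Fin d → ℝ → Ω → ℝ) (S : Ω → ℝ),
      Measurable[Fil B P T, borel ℝ] ξ ∧
      IsSol T P B gen ξ Y Z ∧ IsSol T P B gen ξ Y' Z' ∧
      (∀ ω, Y 0 ω = 0) ∧ (∀ ω, Y' 0 ω = -1) ∧
      (∀ ω, ∀ t ∈ Icc (0 : ℝ) T, |Y t ω| ≤ S ω ∧ |Y' t ω| ≤ S ω) ∧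
      ∀ p : ℝ, 0 ≤ p → Integrable (fun ω => |ξ ω| ^ p) P ∧ Integrable (fun ω => S ω ^ p) P ∧
        ClassD T P (Fil B P) (fun t ω => |Y t ω| ^ p) ∧
        ClassD T P (Fil B P) (fun t ω => |Y' t ω| ^ p) := by
  obtain ⟨W0, hW0, hW0B⟩ := hcbx Ω P d B hB ⟨0, hd⟩
  obtain ⟨W, hW, hWW, hgood⟩ := hgoo hpth hmsr hnul Ω P (Fil B P) W0 hW0 T hT
  have hWB : ∀ t, ∀ᵐ ω ∂P, W t ω = bt B ⟨0, hd⟩ t ω := by
    intro t
    filter_upwards [hWW t, hW0B t] with ω h1 h2
    rw [h1, h2]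
  have hbor : (inferInstance : MeasurableSpace ℝ) = borel ℝ := BorelSpace.measurable_eq
  have hσ := sch_sg hpth hmsr P (Fil B P) W hW T hT hgood
  have hx0 : ∀ n ω, 0 ≤ xs T (fun t => W t ω) n := fun n ω => (hpth T hT _ (hW.cont ω) n).1
  have hmeas : ∀ (n : ℕ) (g : ℝ → ℝ), Measurable g → Measurable[Fil B P (tt T n), borel ℝ]
      (fun ω => g (mu T n (xs T (fun t => W t ω) n) : ℝ)) := by
    intro n g hg
    have h1 := (hmsr hpth Ω P (Fil B P) W hW T hT n).1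
    rw [← hbor] at h1 ⊢
    have h2 : Measurable (fun x : ℝ => g (mu T n x : ℝ)) := by
      unfold mu
      refine hg.comp ?_
      exact (measurable_from_nat (f := fun k : ℕ => (k : ℝ))).comp
        (Nat.measurable_ceil.comp (measurable_id.div_const _))
    exact h2.comp h1
  set a : ℕ → Ω → ℝ := fun n ω => 2 * π * (mu T n (xs T (fun t => W t ω) n) : ℝ) + π / 2 with ha
  set a' : ℕ → Ω → ℝ := fun n ω => 2 * π * (mu T n (xs T (fun t => W t ω) n) : ℝ) - π / 2 with ha'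
  set c' : ℕ → Ω → ℝ := fun n ω => π / 2 - 2 * π * (mu T n (xs T (fun t => W t ω) n) : ℝ) with hc'
  set σ : ℕ → Ω → ℝ := fun n ω => sg T (fun t => W t ω) n with hσd
  have ham : ∀ n, Measurable[Fil B P (tt T n), borel ℝ] (a n) := fun n =>
    hmeas n (fun z => 2 * π * z + π / 2) (by fun_prop)
  have ham' : ∀ n, Measurable[Fil B P (tt T n), borel ℝ] (a' n) := fun n =>
    hmeas n (fun z => 2 * π * z - π / 2) (by fun_prop)
  have hcm' : ∀ n, Measurable[Fil B P (tt T n), borel ℝ] (c' n) := fun n =>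
    hmeas n (fun z => π / 2 - 2 * π * z) (by fun_prop)
  have htel' := htel hpth Ω W hW.cont T hT hgood a a' a c' (fun n ω => by simp only [ha, ha']; ring)
    (fun n ω => by simp only [ha, hc']; ring)
  set ξ : Ω → ℝ := fun ω => MM T W σ a T ω - AA T σ a T ω - 0 with hξ
  have hsol := isSol_of hpwc hprm hprz hctm hito hint hgen P B W hW ⟨0, hd⟩ hWB T hT σ a a hσ ham
    ham (fun n ω => (hgen.2 (mu T n (xs T (fun t => W t ω) n))).1) 0 ξ (fun ω => rfl)
  have hsol' := isSol_of hpwc hprm hprz hctm hito hint hgen P B W hW ⟨0, hd⟩ hWB T hT σ a' c' hσ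
    ham' hcm' (fun n ω => (hgen.2 (mu T n (xs T (fun t => W t ω) n))).2) 1 ξ (fun ω => by
      have := htel' ω
      simp only [hξ]
      linarith)
  have hct := hctm Ω (Fil B P) W hW.cont T hT σ
  have hb1 := hbnd hpth Ω W hW.cont T hT hgood (3 * π) (by positivity) a
    (fun n ω => (bound_coef T hT n _ (hx0 n ω)).1)
  have hb2 := hbnd hpth Ω W hW.cont T hT hgood (3 * π) (by positivity) a'
    (fun n ω => (bound_coef T hT n _ (hx0 n ω)).2.1)
  have hb3 := hbnd hpth Ω W hW.cont T hT hgood (3 * π) (by positivity) c'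
    (fun n ω => (bound_coef T hT n _ (hx0 n ω)).2.2)
  obtain ⟨hf1, hf2, hf3⟩ := hmom hpth hmsr hnul hmax Ω P (Fil B P) W hW T hT
  obtain ⟨hs1, hs2⟩ := hlps Ω P (ff T W) hf1 hf2 hb1.1 hf3
  have hs0 : ∀ ω, 0 ≤ ∑' n, ff T W n ω := fun ω => tsum_nonneg fun n => hf2 n ω
  have hS := hdom Ω P (fun ω => ∑' n, ff T W n ω) hs1 hs0 hs2 (6 * π) (by positivity)
  set S : Ω → ℝ := fun ω => 1 + 6 * π * ∑' n, ff T W n ω with hSd
  have hYS : ∀ (t : ℝ) (ω : Ω), |MM T W σ a t ω - AA T σ a t ω - 0| ≤ S ω ∧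
      |MM T W σ a' t ω - AA T σ c' t ω - 1| ≤ S ω := by
    intro t ω
    have k1 := (hb1.2 t ω).1
    have k2 := (hb1.2 t ω).2
    have k3 := (hb2.2 t ω).1
    have k4 := (hb3.2 t ω).2
    have k5 := hs0 ω
    rw [abs_le] at k1 k2 k3 k4
    simp only [hSd]
    constructor <;> rw [abs_le] <;> constructor <;> linarith [k1.1, k1.2, k2.1, k2.2, k3.1, k3.2,
      k4.1, k4.2]
  have hξm : Measurable[Fil B P T, borel ℝ] ξ := prog_terminal T hT.le (Fil B P) _ hsol.progY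
  have hcl : ∀ (X : ℝ → Ω → ℝ) (p : ℝ), 0 ≤ p → Prog T (Fil B P) X →
      (∀ t ω, |X t ω| ≤ S ω) → ClassD T P (Fil B P) (fun t ω => |X t ω| ^ p) := by
    intro X p hp hX hXS
    refine classD_of_dominated P (Fil B P) hW.le hW.mono T hT.le _ (prog_abs_rpow T _ X p hX)
      (fun ω => S ω ^ p) (hS p hp) fun t _ ω => ?_
    rw [abs_of_nonneg (by positivity)]
    exact Real.rpow_le_rpow (abs_nonneg _) (hXS t ω) hp
  refine ⟨ξ, _, _, _, _, S, hξm, hsol, hsol', fun ω => ?_, fun ω => ?_,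
    fun ω t _ => hYS t ω, fun p hp => ⟨?_, hS p hp, hcl _ p hp hsol.progY fun t ω => (hYS t ω).1,
      hcl _ p hp hsol'.progY fun t ω => (hYS t ω).2⟩⟩
  · show MM T W σ a 0 ω - AA T σ a 0 ω - 0 = 0
    rw [(hct a hσ).2.2.1 ω, (hct a hσ).2.2.2 ω]
    ring
  · show MM T W σ a' 0 ω - AA T σ c' 0 ω - 1 = -1
    rw [(hct a' hσ).2.2.1 ω, (hct c' hσ).2.2.2 ω]
    ring
  · refine Integrable.mono' (hS p hp) ?_ (Eventually.of_forall fun ω => ?_)
    · have h1 : Measurable ξ := by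
        have h2 := hξm
        rw [← hbor] at h2
        exact h2.mono (hW.le T) le_rfl
      exact ((continuous_abs.measurable.comp h1).pow_const p).aestronglyMeasurable
    · rw [Real.norm_eq_abs, abs_of_nonneg (by positivity)]
      exact Real.rpow_le_rpow (abs_nonneg _) (hYS T ω).1 hp

end Pool.Agent.Q295.BZ
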