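import Pool.Agent.Helper807.BS.LTt
import Pool.Agent.Q295.BZ.Defs

/-!
# Non-uniqueness for the BSDE with generator `|z| sin |z|`: definitions and lemma statements

`F` is a filtration, `W` a real Brownian motion for `F` with continuous paths (`CB`).
Grid `tt T n = T (1 - 2^{-n})`, stage `n` is the time interval `[tt T n, tt T (n + 1)]` of length
`dl T n = T 2^{-n-1}`.

Along a continuous path `w` the difference of the two solutions is, in stage `n`,
`X t = x_n + π (w t - w (t_n)) - 4 π m_n (t - t_n)`, `m_n = ⌈x_n / (4 π δ_n)⌉`, stopped at the first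
time `sg n` at which it is `0` (and at the end of the stage), `x_{n+1} = X (sg n)`, `x_0 = 1`
(`xs`).  All names below are as in this description.
-/

set_option autoImplicit false

namespace Pool.Agent.Q295.BZ

open MeasureTheory ProbabilityTheory Set Filter
open scoped NNReal ENNReal Topology Real
open Pool.Agent.Helper807.BS (Prog IsStop ClassD tt clamp)

universe u

/-- `W` is a real Brownian motion with respect to the filtration `F` with all paths
continuous (only what is used of it). -/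
structure CB {Ω : Type u} [mΩ : MeasurableSpace Ω] (P : Measure Ω) (F : ℝ → MeasurableSpace Ω)
    (W : ℝ → Ω → ℝ) : Prop where
  mono : ∀ s t : ℝ, s ≤ t → F s ≤ F t
  le : ∀ t, F t ≤ mΩ
  adapted : ∀ t, 0 ≤ t → Measurable[F t, borel ℝ] (W t)
  cont : ∀ ω, Continuous (fun t => W t ω)
  gauss : ∀ (s t : ℝ), 0 ≤ s → s ≤ t →
    HasLaw (fun ω => W t ω - W s ω) (gaussianReal 0 (t - s).toNNReal) P
  indep : ∀ (s t : ℝ), 0 ≤ s → s ≤ t →
    Indep (F s) (MeasurableSpace.comap (fun ω => W t ω - W s ω) (borel ℝ)) P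
  null : ∀ A : Set Ω, MeasurableSet[mΩ] A → P A = 0 → MeasurableSet[F 0] A

/-- A sequence of stopping times `σ n` with values in the stages, all but finitely many of them
(for every `ω`) equal to the left end point of the stage. -/
structure Sch {Ω : Type u} (T : ℝ) (F : ℝ → MeasurableSpace Ω) (σ : ℕ → Ω → ℝ) : Prop where
  lo : ∀ n ω, tt T n ≤ σ n ω
  hi : ∀ n ω, σ n ω ≤ tt T (n + 1)
  st : ∀ n (s : ℝ), 0 ≤ s → MeasurableSet[F s] {ω | s < σ n ω}
  fin : ∀ ω, ∃ N, ∀ n, N ≤ n → σ n ω = tt T n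

/-- the integrand `∑ a_n 1_{(t_n, σ_n]}` -/
noncomputable def ZZ {Ω : Type u} (T : ℝ) (σ a : ℕ → Ω → ℝ) (t : ℝ) (ω : Ω) : ℝ :=
  ∑' n, if tt T n < t ∧ t ≤ σ n ω then a n ω else 0

/-- the stochastic integral `∑ a_n (W(σ_n ∧ t) - W(t_n ∧ t))` -/
noncomputable def MM {Ω : Type u} (T : ℝ) (W : ℝ → Ω → ℝ) (σ a : ℕ → Ω → ℝ) (t : ℝ)
    (ω : Ω) : ℝ :=
  ∑' n, a n ω * (W (clamp (tt T n) (σ n ω) t) ω - W (tt T n) ω)

/-- the time integral `∑ c_n (σ_n ∧ t - t_n ∧ t)` -/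
noncomputable def AA {Ω : Type u} (T : ℝ) (σ c : ℕ → Ω → ℝ) (t : ℝ) (ω : Ω) : ℝ :=
  ∑' n, c n ω * (clamp (tt T n) (σ n ω) t - tt T n)

/-- the length of stage `n` -/
noncomputable def dl (T : ℝ) (n : ℕ) : ℝ := tt T (n + 1) - tt T n

/-- the first time in `[a, b]` at which `x + π (w t - w a) - k (t - a) ≤ 0`, and `b` if there is
none -/
noncomputable def hit (x k a b : ℝ) (w : ℝ → ℝ) : ℝ :=
  sInf {t | t ∈ Icc a b ∧ (t = b ∨ x + π * (w t - w a) - k * (t - a) ≤ 0)}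

/-- the integer `m_n = ⌈x / (4 π δ_n)⌉` -/
noncomputable def mu (T : ℝ) (n : ℕ) (x : ℝ) : ℕ := ⌈x / (4 * π * dl T n)⌉₊

/-- the difference `x_n` at the beginning of stage `n` along the path `w` -/
noncomputable def xs (T : ℝ) (w : ℝ → ℝ) : ℕ → ℝ
  | 0 => 1
  | n + 1 => xs T w n +
      π * (w (hit (xs T w n) (4 * π * mu T n (xs T w n)) (tt T n) (tt T (n + 1)) w) - w (tt T n)) -
      4 * π * mu T n (xs T w n) *
        (hit (xs T w n) (4 * π * mu T n (xs T w n)) (tt T n) (tt T (n + 1)) w - tt T n)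

/-- the end `σ_n` of the active part of stage `n` along the path `w` -/
noncomputable def sg (T : ℝ) (w : ℝ → ℝ) (n : ℕ) : ℝ :=
  hit (xs T w n) (4 * π * mu T n (xs T w n)) (tt T n) (tt T (n + 1)) w

/-- the maximum of `|W r - W a|` over `r ∈ [a, b]` -/
noncomputable def SM {Ω : Type u} (W : ℝ → Ω → ℝ) (a b : ℝ) (ω : Ω) : ℝ :=
  sSup ((fun r => |W r ω - W a ω|) '' Icc a b)

/-- the bound for the contribution of stage `n` -/
noncomputable def ff {Ω : Type u} (T : ℝ) (W : ℝ → Ω → ℝ) (n : ℕ) (ω : Ω) : ℝ :=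
  if 0 < xs T (fun t => W t ω) n then
    (1 + xs T (fun t => W t ω) n / dl T n) * (SM W (tt T n) (tt T (n + 1)) ω + dl T n) else 0

/-! ## Lemma statements -/

/-- JOB CBX.  Adapt `Pool.Agent.Helper807.BS.LIndep` and `LCbmex` (theorems `indep_increment` and
`exists_cbm`, there for two dimensions) to `d` dimensions: `W t ω = 0` if `ω ∈ N`, else
`B i t.toNNReal ω`, `N` a measurable null set containing the `ω` with discontinuous `B i`.
The increment `B i t - B i s` is independent of `Fil B P s`: it is independent of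
`(B i r)_{r ≤ s}` (`hX.indepFun_shift s` as there), and the pair (increment, `(B i r)_{r ≤ s}`) is
independent of the family `(B j)_{j ≠ i}` by `iIndepFun` (for instance
`iIndepFun.indepFun_finset` with the two sets `{i}` and its complement). -/
def S_CBX : Prop := ∀ (Ω : Type u) [mΩ : MeasurableSpace Ω] (P : Measure Ω)
    [IsProbabilityMeasure P] (d : ℕ) (B : Fin d → ℝ≥0 → Ω → ℝ), IsBM B P → ∀ i : Fin d,
  ∃ W : ℝ → Ω → ℝ, CB P (Fil B P) W ∧ ∀ t : ℝ, ∀ᵐ ω ∂P, W t ω = bt B i t ω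

/-- JOB EXB.  A `d`-dimensional Brownian motion exists on a complete probability space.  Take a
Brownian motion `X : ℝ≥0 → Ω₀ → ℝ` with measurable `X t` on some probability space `(Ω₀, P₀)`
(see how the starting library gets one: `Pool.Agent.Helper41` (`exists_sheet`), or
`Pool.Agent.Q297.BmExist`), then `Ω = Fin d → Ω₀`, `P = Measure.pi fun _ => P₀`,
`B i t ω = X t (ω i)`, independent by `iIndepFun_pi`, then complete the space
(`Measure.completion`, as measurable space `NullMeasurableSpace Ω P`): the laws and independence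
do not change, as `P.completion A = P A`. -/
def S_EXB : Prop := ∀ d : ℕ, ∃ (Ω : Type) (_ : MeasurableSpace Ω) (P : Measure Ω)
    (B : Fin d → ℝ≥0 → Ω → ℝ), IsProbabilityMeasure P ∧ P.IsComplete ∧ IsBM B P

/-- JOB PWC.  Pathwise convergence of simple integrands gives the Ito integral.  The first
convergence: `ω ↦ ∫⁻ s in Icc 0 T, ofReal (∑ i, (sval (H n) i s ω - Z i s ω)²)` is measurable
(`Measurable.lintegral_prod_left'`; `Z` only on `Icc 0 T`: use the restriction to the subtype, or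
extend `Z` by `0`), and pointwise convergence implies convergence in measure
(`tendstoInMeasure_of_tendsto_ae`).  The second: for the countable dense set of the rational times
and `T` in `[0, T]` the supremum `V n ω` over these times of `|sint W (H n) t ω - M t ω|` (as
`ℝ≥0∞`, or as real, bounded by compactness) is measurable, tends to `0` for every `ω`, and by
continuity of both processes in `t` on `[0, T]` it dominates `|sint W (H n) t ω - M t ω|` for all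
`t ∈ [0, T]`; so `⨆ t P{...} ≤ P{V n ≥ ε} → 0`.  Then replace `W` by `Bt` in `sint` for every
fixed `n` and `t` (almost sure equality).  Compare `Pool.Agent.Helper807.BS.LDiag` and
`Pool.Agent.Helper41.BS` (dimension two) for measurability of `sval`. -/
def S_PWC : Prop := ∀ (Ω : Type u) [mΩ : MeasurableSpace Ω] (P : Measure Ω)
    [IsProbabilityMeasure P] (d : ℕ) (T : ℝ), 0 < T →
    ∀ (F : ℝ → MeasurableSpace Ω), (∀ t, F t ≤ mΩ) →
    ∀ (W Bt Z : Fin d → ℝ → Ω → ℝ) (M : ℝ → Ω → ℝ) (H : ℕ → List (Blk d Ω)),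
    (∀ i ω, Continuous fun t => W i t ω) → (∀ i t, 0 ≤ t → Measurable (W i t)) →
    (∀ i, Measurable fun q : Icc (0 : ℝ) T × Ω => Z i q.1 q.2) →
    (∀ ω, ContinuousOn (fun t => M t ω) (Icc 0 T)) →
    (∀ t ∈ Icc (0 : ℝ) T, Measurable (M t)) →
    (∀ n, IsSimple T F (H n)) →
    (∀ n t, 0 ≤ t → ∀ᵐ ω ∂P, sint Bt (H n) t ω = sint W (H n) t ω) →
    (∀ ω, Tendsto (fun n => ∫⁻ s in Icc (0 : ℝ) T,
      ENNReal.ofReal (∑ i, (sval (H n) i s ω - Z i s ω) ^ 2)) atTop (𝓝 0)) →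
    (∀ ω, ∀ ε : ℝ, 0 < ε → ∀ᶠ n in atTop, ∀ t ∈ Icc (0 : ℝ) T,
      |sint W (H n) t ω - M t ω| ≤ ε) →
    IsIto T P F Bt Z M

/-- JOB PRM.  `MM` and `AA` are progressively measurable.  Fix `t ∈ [0, T]`.  If `tt T n ≥ t` the
`n`-th term vanishes for `s ≤ t` (as `clamp a c s = a` for `s ≤ a`).  If `tt T n < t`: `a n` is
`F t`-measurable; for `s ≤ t`, `min s (σ n ω) = min s (min t (σ n ω))`, and `ω ↦ min t (σ n ω)` is
`F t`-measurable because `{u < min t σ_n} = {u < σ_n} ∈ F u ≤ F t` for `0 ≤ u < t`; and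
`(u, ω) ↦ W (min u t ∨ 0) ω` is jointly measurable for Borel times `F t` (continuous in `u`,
`F t`-measurable in `ω`: `measurable_uncurry_of_continuous_of_measurable`).  Finally `∑'` of
measurable real functions, here with only finitely many nonzero terms (`Sch.fin`: for `n ≥ N(ω)`
the terms vanish), is a pointwise limit of the partial sums, hence measurable.  (All
measurability with respect to the sigma-algebra `F t` on `Ω`, use `@` or `letI`, see
`Pool.Agent.Helper807.BS.LProgst`.) -/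
def S_PRM : Prop := ∀ (Ω : Type u) [mΩ : MeasurableSpace Ω] (P : Measure Ω)
    [IsProbabilityMeasure P] (F : ℝ → MeasurableSpace Ω) (W : ℝ → Ω → ℝ), CB P F W →
    ∀ (T : ℝ), 0 < T → ∀ (σ a : ℕ → Ω → ℝ), Sch T F σ →
    (∀ n, Measurable[F (tt T n), borel ℝ] (a n)) →
    Prog T F (MM T W σ a) ∧ Prog T F (AA T σ a)

/-- JOB PRZ.  `ZZ` is progressively measurable: for `s ≤ t` the `n`-th term is
`1{t_n < s} 1{s ≤ min t σ_n} a_n`; it vanishes if `t_n ≥ t`, and if `t_n < t` it is a product of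
measurable functions (`min t σ_n` and `a_n` are `F t`-measurable as in JOB PRM). -/
def S_PRZ : Prop := ∀ (Ω : Type u) [mΩ : MeasurableSpace Ω] (P : Measure Ω)
    [IsProbabilityMeasure P] (F : ℝ → MeasurableSpace Ω) (W : ℝ → Ω → ℝ), CB P F W →
    ∀ (T : ℝ), 0 < T → ∀ (σ a : ℕ → Ω → ℝ), Sch T F σ →
    (∀ n, Measurable[F (tt T n), borel ℝ] (a n)) →
    Prog T F (ZZ T σ a)

/-- JOB CTM.  Continuity of the paths of `MM` and `AA` (for every `ω` a finite sum of continuous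
functions, by `Sch.fin`), and their values at time `0`. -/
def S_CTM : Prop := ∀ (Ω : Type u) [mΩ : MeasurableSpace Ω] (F : ℝ → MeasurableSpace Ω)
    (W : ℝ → Ω → ℝ), (∀ ω, Continuous fun t => W t ω) →
    ∀ (T : ℝ), 0 < T → ∀ (σ a : ℕ → Ω → ℝ), Sch T F σ →
    (∀ ω, Continuous fun t => MM T W σ a t ω) ∧ (∀ ω, Continuous fun t => AA T σ a t ω) ∧
    (∀ ω, MM T W σ a 0 ω = 0) ∧ (∀ ω, AA T σ a 0 ω = 0)

/-- JOB ITO.  `MM` is the Ito integral of `ZZ e_i`.  Simple integrands: for `n : ℕ`, for every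
stage `k < n` and every `j < n` the block with `r_j = t_k + (t_{k+1} - t_k) j / n`, `s = r_j`,
`r = r_{j+1}`, coordinate `i`, coefficient `h ω = 1{r_j < σ_k ω} * max (-n) (min n (a_k ω))`
(`F r_j`-measurable and bounded by `n`).  For fixed `ω` let `N` be as in `Sch.fin` (stages
`k ≥ N` contribute nothing, as `σ_k = t_k`) and `n` larger than `N` and all `|a_k ω|`, `k < N`.
Then `sval (H n) i s ω - ZZ s ω` is nonzero only for `s` in the one grid interval of each stage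
`k < N` which contains `σ_k ω`, where it is at most `|a_k ω|` in absolute value; so the integral of
its square is at most `∑_{k<N} a_k² T / n → 0`.  And `sint (H n) t ω = ∑_{k<N} a_k (W(ρ_k ∧ t) -
W(t_k ∧ t))` (telescoping) where `ρ_k = ρ_k(n)` is the first grid point `≥ σ_k`, `|ρ_k - σ_k| ≤
T / n`; it converges to `MM t ω` uniformly in `t ∈ [0, T]` by uniform continuity of
`W` on `[0, T]`.  Apply PWC with `W j := W` for all `j` (only blocks with coordinate `i` occur). -/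
def S_ITO : Prop := S_PWC.{u} → S_PRM.{u} → S_PRZ.{u} → S_CTM.{u} →
    ∀ (Ω : Type u) [mΩ : MeasurableSpace Ω] (P : Measure Ω)
    [IsProbabilityMeasure P] (F : ℝ → MeasurableSpace Ω) (W : ℝ → Ω → ℝ), CB P F W →
    ∀ (d : ℕ) (i : Fin d) (Bt : Fin d → ℝ → Ω → ℝ), (∀ t, ∀ᵐ ω ∂P, W t ω = Bt i t ω) →
    ∀ (T : ℝ), 0 < T → ∀ (σ a : ℕ → Ω → ℝ), Sch T F σ →
    (∀ n, Measurable[F (tt T n), borel ℝ] (a n)) →
    IsIto T P F Bt (fun j t ω => if j = i then ZZ T σ a t ω else 0) (MM T W σ a)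

/-- JOB INT.  For every `ω`, `s ↦ φ (ZZ s ω)` is the step function `∑_{n<N} c_n 1_{(t_n, σ_n]}(s)`
(the intervals are disjoint, at most one term of the sum `ZZ` is nonzero, and `φ 0 = 0`); its
integral over `[t, T]` is `∑ c_n (clamp(t_n, σ_n, T) - clamp(t_n, σ_n, t))`. -/
def S_INT : Prop := ∀ (Ω : Type u) [mΩ : MeasurableSpace Ω] (F : ℝ → MeasurableSpace Ω)
    (T : ℝ), 0 < T → ∀ (σ a c : ℕ → Ω → ℝ), Sch T F σ →
    ∀ φ : ℝ → ℝ, φ 0 = 0 → (∀ n ω, φ (a n ω) = c n ω) →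
    (∀ ω, ∀ t ∈ Icc (0 : ℝ) T,
      ∫ s in t..T, φ (ZZ T σ a s ω) = AA T σ c T ω - AA T σ c t ω) ∧
    ∀ ω, ∫⁻ s in Icc (0 : ℝ) T, ENNReal.ofReal ((ZZ T σ a s ω) ^ 2) < ∞

/-- JOB PTH.  Pathwise facts.  Write `X r = xs n + π (w r - w t_n) - 4 π m_n (r - t_n)`; the set in
`hit` is closed and contains `t_{n+1}`, so its infimum `sg n` is its least element; `X t_n = xs n`.
If `xs n = 0` it is `t_n`.  If `xs n > 0` then `X > 0` on `[t_n, sg n)`, hence `X (sg n) ≥ 0` by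
continuity, and `X (sg n) = 0` if `sg n < t_{n+1}`; `xs (n+1) = X (sg n)`.  So `xs (n+1) > 0`
implies `xs n > 0` and `sg n = t_{n+1}`, and then `xs (n+1) = xs n + π (w t_{n+1} - w t_n) -
4 π m_n δ_n ≤ π (w t_{n+1} - w t_n)` because `4 π m_n δ_n ≥ xs n`. -/
def S_PTH : Prop := ∀ (T : ℝ), 0 < T → ∀ w : ℝ → ℝ, Continuous w → ∀ n : ℕ,
  0 ≤ xs T w n ∧ tt T n ≤ sg T w n ∧ sg T w n ≤ tt T (n + 1) ∧
  (xs T w n = 0 → sg T w n = tt T n ∧ xs T w (n + 1) = 0) ∧
  (0 < xs T w (n + 1) → 0 < xs T w n ∧ sg T w n = tt T (n + 1) ∧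
    xs T w (n + 1) ≤ π * (w (tt T (n + 1)) - w (tt T n))) ∧
  (∀ s, tt T n ≤ s → s < tt T (n + 1) → (s < sg T w n ↔ ∀ r ∈ Icc (tt T n) s,
    0 < xs T w n + π * (w r - w (tt T n)) - 4 * π * mu T n (xs T w n) * (r - tt T n)))

/-- JOB MSR.  Measurability, induction on `n`.  If `xs n` is `F t_n`-measurable: `{s < sg n}` is
everything for `s < t_n`, empty for `s ≥ t_{n+1}`, and for `s ∈ [t_n, t_{n+1})` it is, by PTH and
compactness, `{∃ k, ∀ r ∈ D, X r ≥ 1/(k+1)}`, `D` the countable set of the rationals in `[t_n, s]`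
together with `t_n` and `s`, and `X r` is `F s`-measurable.  So `sg n` is `F t_{n+1}`-measurable,
`ω ↦ W (sg n ω) ω` as well (`W` restricted to `[0, t_{n+1}]` is jointly measurable for
Borel times `F t_{n+1}`), and so is `xs (n+1)`. -/
def S_MSR : Prop := S_PTH → ∀ (Ω : Type u) [mΩ : MeasurableSpace Ω] (P : Measure Ω)
    [IsProbabilityMeasure P] (F : ℝ → MeasurableSpace Ω) (W : ℝ → Ω → ℝ), CB P F W →
    ∀ (T : ℝ), 0 < T → ∀ n : ℕ,
    (Measurable[F (tt T n), borel ℝ] fun ω => xs T (fun t => W t ω) n) ∧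
    ∀ s : ℝ, 0 ≤ s → MeasurableSet[F s] {ω | s < sg T (fun t => W t ω) n}

/-- JOB NUL.  Induction: `{xs (n+1) > 0} ⊆ {xs n > 0} ∩ {W t_{n+1} - W t_n > 0}` by PTH; the first
event is in `F t_n`, the second is independent of it and has probability `1/2` (centred Gaussian
with positive variance: `gaussianReal 0 v {x | 0 < x} = 1/2`). -/
def S_NUL : Prop := S_PTH → S_MSR.{u} → ∀ (Ω : Type u) [mΩ : MeasurableSpace Ω] (P : Measure Ω)
    [IsProbabilityMeasure P] (F : ℝ → MeasurableSpace Ω) (W : ℝ → Ω → ℝ), CB P F W →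
    ∀ (T : ℝ), 0 < T → ∀ n : ℕ, P {ω | 0 < xs T (fun t => W t ω) n} ≤ (2 : ℝ≥0∞)⁻¹ ^ n

/-- JOB GOO.  `N = {∀ n, xs n ≠ 0}` is a measurable null set by NUL (and `xs ≥ 0`, PTH).  Put
`W' = 0` on `N` and `W' = W` off `N`.  `W'` is again a `CB` (as `cbm_modify` in
`Pool.Agent.Helper807.BS.LCbmgood`), and for `ω ∈ N` the path is `0`, so `xs 1 > 0` is impossible
by PTH. -/
def S_GOO : Prop := S_PTH → S_MSR.{u} → S_NUL.{u} → ∀ (Ω : Type u) [mΩ : MeasurableSpace Ω]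
    (P : Measure Ω) [IsProbabilityMeasure P] (F : ℝ → MeasurableSpace Ω) (W : ℝ → Ω → ℝ),
    CB P F W → ∀ (T : ℝ), 0 < T → ∃ W' : ℝ → Ω → ℝ, CB P F W' ∧
      (∀ t, ∀ᵐ ω ∂P, W' t ω = W t ω) ∧ ∀ ω, ∃ n, xs T (fun t => W' t ω) n = 0

/-- JOB MAX.  Moments of the maximum.  By Levy's inequality on a finite grid
`a = r_0 < ... < r_m = b`: with `S_k = W r_k - W a` and the first `k` with `|S_k| ≥ l` (an event
`A_k` in `F r_k`), `P(A_k ∩ {|S_m| ≥ l}) ≥ P(A_k) / 2` since `S_m - S_k` is independent of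
`F r_k` and symmetric; summing, `P(max_k |S_k| ≥ l) ≤ 2 P(|S_m| ≥ l)`.  Hence (layer cake)
`E max_k |S_k|^q ≤ 2 E |W b - W a|^q = 2 c_q (b - a)^{q/2}`.  Let the grid run through the dyadic
ones: the maxima increase to `SM` by continuity (monotone convergence).  (Doob's maximal
inequality of Mathlib, `MeasureTheory.maximal_ineq`, is another way.)  The case `q = 0` is
trivial.  `SM` is measurable as the supremum over the dyadic grid points. -/
def S_MAX : Prop := ∀ q : ℕ, ∃ C : ℝ, ∀ (Ω : Type u) [mΩ : MeasurableSpace Ω]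
    (P : Measure Ω) [IsProbabilityMeasure P] (F : ℝ → MeasurableSpace Ω) (W : ℝ → Ω → ℝ),
    CB P F W → ∀ a b : ℝ, 0 ≤ a → a < b →
    Measurable (SM W a b) ∧ (∀ ω, ∀ r ∈ Icc a b, |W r ω - W a ω| ≤ SM W a b ω) ∧
    (∀ ω, 0 ≤ SM W a b ω) ∧
    ∫⁻ ω, ENNReal.ofReal (SM W a b ω ^ q) ∂P ≤ ENNReal.ofReal (C * √(b - a) ^ q)

/-- JOB LPS.  Minkowski's inequality: the norm of `∑ f_n` in `L^p` is at most
`∑ (C ρ^n)^{1/p} < ∞`.  (Or elementary: by Holder for sums with `r = ρ^{1/(2p)}`,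
`(∑ f_n)^p ≤ (∑ r^n)^{p-1} ∑ r^{-n(p-1)} f_n^p`, and `r^{-n(p-1)} ρ^n ≤ ρ^{n/2}`.)
The sum is finite for every `ω`, a pointwise limit of measurable functions. -/
def S_LPS : Prop := ∀ (Ω : Type u) [mΩ : MeasurableSpace Ω] (P : Measure Ω)
    [IsProbabilityMeasure P] (f : ℕ → Ω → ℝ), (∀ n, Measurable (f n)) → (∀ n ω, 0 ≤ f n ω) →
    (∀ ω, ∃ N, ∀ n, N ≤ n → f n ω = 0) →
    (∀ p : ℕ, 1 ≤ p → ∃ C ρ : ℝ, 0 ≤ C ∧ 0 ≤ ρ ∧ ρ < 1 ∧
      ∀ n, ∫⁻ ω, ENNReal.ofReal (f n ω ^ p) ∂P ≤ ENNReal.ofReal (C * ρ ^ n)) →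
    Measurable (fun ω => ∑' n, f n ω) ∧
    ∀ p : ℕ, Integrable (fun ω => (∑' n, f n ω) ^ p) P

/-- JOB MOM.  `E ff_n^p ≤ C 2^{-n/2}`: with `A = {xs n > 0}`, `U = 1 + xs n / δ_n`,
`V = SM_n + δ_n`, Cauchy-Schwarz twice gives `E 1_A U^p V^p ≤ P(A)^{1/2} (E 1_A U^{4p})^{1/4}
(E V^{4p})^{1/4}`, `P(A) ≤ 2^{-n}` (NUL); on `A`, for `n ≥ 1`, `xs n ≤ π SM_{n-1}` (PTH) and
`δ_{n-1} = 2 δ_n`, so by MAX with `q = 4p` (and `(x + y)^{4p} ≤ 2^{4p} (x^{4p} + y^{4p})`)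
`E 1_A U^{4p} ≤ c (1 + δ_n^{-2p})`, `E V^{4p} ≤ c (δ_n^{2p} + δ_n^{4p})`, with `c` depending on
`p` only, the product is at most `c² (1 + T^{2p})²`.  For `n = 0`, `xs 0 = 1`. -/
def S_MOM : Prop := S_PTH → S_MSR.{u} → S_NUL.{u} → S_MAX.{u} →
    ∀ (Ω : Type u) [mΩ : MeasurableSpace Ω] (P : Measure Ω) [IsProbabilityMeasure P]
    (F : ℝ → MeasurableSpace Ω) (W : ℝ → Ω → ℝ), CB P F W → ∀ (T : ℝ), 0 < T →
    (∀ n, Measurable (ff T W n)) ∧ (∀ n ω, 0 ≤ ff T W n ω) ∧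
    ∀ p : ℕ, 1 ≤ p → ∃ C ρ : ℝ, 0 ≤ C ∧ 0 ≤ ρ ∧ ρ < 1 ∧
      ∀ n, ∫⁻ ω, ENNReal.ofReal (ff T W n ω ^ p) ∂P ≤ ENNReal.ofReal (C * ρ ^ n)

/-- JOB BND.  Term by term: if `xs n = 0` then `sg n = t_n`, `clamp t_n t_n t = t_n` and the
`n`-th terms of `MM`, `AA` vanish; else they are at most `|a n| SM_n` and `|a n| δ_n`, both at
most `K ff_n`.  All sums are finite (after the first zero of `xs` everything is `0`). -/
def S_BND : Prop := S_PTH → ∀ (Ω : Type u) [mΩ : MeasurableSpace Ω] (W : ℝ → Ω → ℝ),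
    (∀ ω, Continuous fun t => W t ω) → ∀ (T : ℝ), 0 < T →
    (∀ ω, ∃ n, xs T (fun t => W t ω) n = 0) → ∀ (K : ℝ), 0 ≤ K → ∀ a : ℕ → Ω → ℝ,
    (∀ n ω, |a n ω| ≤ K * (1 + xs T (fun t => W t ω) n / dl T n)) →
    (∀ ω, ∃ N, ∀ n, N ≤ n → ff T W n ω = 0) ∧ ∀ (t : ℝ) (ω : Ω),
      |MM T W (fun n ω => sg T (fun t => W t ω) n) a t ω| ≤ K * ∑' n, ff T W n ω ∧
      |AA T (fun n ω => sg T (fun t => W t ω) n) a t ω| ≤ K * ∑' n, ff T W n ω

/-- JOB TEL.  At time `T`, `clamp t_n σ_n T = σ_n`, all sums are finite, so the left-hand side is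
`∑_n (π (W(σ_n) - W(t_n)) - 4 π m_n (σ_n - t_n)) = ∑_n (xs (n+1) - xs n)`, which telescopes to
`xs N - xs 0 = 0 - 1`. -/
def S_TEL : Prop := S_PTH → ∀ (Ω : Type u) [mΩ : MeasurableSpace Ω] (W : ℝ → Ω → ℝ),
    (∀ ω, Continuous fun t => W t ω) → ∀ (T : ℝ), 0 < T →
    (∀ ω, ∃ n, xs T (fun t => W t ω) n = 0) → ∀ (a a' c c' : ℕ → Ω → ℝ),
    (∀ n ω, a n ω - a' n ω = π) →
    (∀ n ω, c n ω - c' n ω = 4 * π * mu T n (xs T (fun t => W t ω) n)) → ∀ ω,
    (MM T W (fun n ω => sg T (fun t => W t ω) n) a T ω -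
      MM T W (fun n ω => sg T (fun t => W t ω) n) a' T ω) -
    (AA T (fun n ω => sg T (fun t => W t ω) n) c T ω -
      AA T (fun n ω => sg T (fun t => W t ω) n) c' T ω) = -1

/-- JOB GEN.  Values of the generator. -/
def S_GEN : Prop :=
  (∀ (d : ℕ) (i : Fin d) (z : ℝ), gen (fun j => if j = i then z else 0) = |z| * Real.sin |z|) ∧
  ∀ m : ℕ, |2 * π * m + π / 2| * Real.sin |2 * π * m + π / 2| = 2 * π * m + π / 2 ∧
    |2 * π * m - π / 2| * Real.sin |2 * π * m - π / 2| = π / 2 - 2 * π * m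

/-- JOB DOM.  `(1 + K S)^p ≤ (1 + K S)^⌈p⌉`, expand the natural power (or bound it by
`2^q (1 + K^q S^q)`, `q = ⌈p⌉`). -/
def S_DOM : Prop := ∀ (Ω : Type u) [mΩ : MeasurableSpace Ω] (P : Measure Ω)
    [IsProbabilityMeasure P] (S : Ω → ℝ), Measurable S → (∀ ω, 0 ≤ S ω) →
    (∀ p : ℕ, Integrable (fun ω => S ω ^ p) P) → ∀ K : ℝ, 0 ≤ K → ∀ p : ℝ, 0 ≤ p →
    Integrable (fun ω => (1 + K * S ω) ^ p) P

end Pool.Agent.Q295.BZ
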